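import Mathlib

/-!
# A recurrent word for which the defect equality fails

We construct a recurrent infinite word `u` over a five letter alphabet with infinitely many
palindromic factors, whose language is not closed under reversal, such that the series of the
`T u n` diverges to `-∞`, while the defect is `+∞`.
-/

open Filter Topology

namespace Pool.Agent.Results.MP_4402c4_co.Disproof

section Defs

variable {A : Type*}

/-- The block `u_i u_{i+1} ⋯ u_{i+n-1}` of the infinite word `u`. -/
def block (u : ℕ → A) (i n : ℕ) : List A := (List.range n).map (fun k => u (i + k))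

/-- The finite word `w` is a factor of the infinite word `u`. -/
def IsFactor (u : ℕ → A) (w : List A) : Prop := ∃ i, block u i w.length = w

/-- `w` is a palindrome. -/
def IsPal (w : List A) : Prop := w.reverse = w

/-- The set of factors of `u` is closed under reversal. -/
def ClosedUnderReversal (u : ℕ → A) : Prop := ∀ w, IsFactor u w → IsFactor u w.reverse

/-- Every factor of `u` occurs in `u` infinitely often (at arbitrarily large positions). -/
def Recurrent (u : ℕ → A) : Prop :=
  ∀ w, IsFactor u w → {i : ℕ | block u i w.length = w}.Infinite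

/-- Factor complexity: the number of factors of length `n`. -/
noncomputable def C (u : ℕ → A) (n : ℕ) : ℕ := {w : List A | IsFactor u w ∧ w.length = n}.ncard

/-- Palindromic complexity: the number of palindromic factors of length `n`. -/
noncomputable def P (u : ℕ → A) (n : ℕ) : ℕ :=
  {w : List A | IsFactor u w ∧ w.length = n ∧ IsPal w}.ncard

/-- `T_u(n) = C_u(n+1) - C_u(n) + 2 - P_u(n+1) - P_u(n)`. -/
noncomputable def T (u : ℕ → A) (n : ℕ) : ℤ :=
  (C u (n + 1) : ℤ) - C u n + 2 - P u (n + 1) - P u n

/-- The defect of a finite word: `|w| + 1` minus the number of palindromic factors of `w`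
(the empty word included). -/
noncomputable def wordDefect (w : List A) : ℤ :=
  (w.length : ℤ) + 1 - ({v : List A | v <:+: w ∧ IsPal v}.ncard : ℤ)

/-- The defect of an infinite word: the supremum of the defects of its (finite) starting
segments, as an extended real number. -/
noncomputable def defect (u : ℕ → A) : EReal :=
  ⨆ n : ℕ, (((wordDefect (block u 0 n) : ℤ) : ℝ) : EReal)

/-- The partial sums of the series of the `T u n`, as extended real numbers. -/
noncomputable def partialSum (u : ℕ → A) (N : ℕ) : EReal :=
  (((∑ n ∈ Finset.range N, T u n : ℤ) : ℝ) : EReal)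

end Defs

/-! ### Windows of finite words -/

section Windows

variable {A : Type*} [DecidableEq A]

/-- The set of factors of length `N` of the finite word `L`. -/
def win (N : ℕ) (L : List A) : Finset (List A) :=
  (Finset.range (L.length - N + 1)).image (fun i => (L.drop i).take N)

lemma card_win (N : ℕ) (L : List A) : (win N L).card ≤ L.length - N + 1 := by
  unfold win
  exact (Finset.card_image_le).trans (by simp)

lemma mem_win {N : ℕ} {L v : List A} (h : v <:+: L) (hv : v.length = N) : v ∈ win N L := by
  obtain ⟨s, t, rfl⟩ := h
  unfold win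
  refine Finset.mem_image.2 ⟨s.length, ?_, ?_⟩
  · simp only [List.length_append, Finset.mem_range]; omega
  · subst hv
    simp

/-- The windows of length `N` of `X ++ M ++ Y` that contain `M` and at least one letter on
either side of it. -/
def mid (N : ℕ) (X M Y : List A) : Finset (List A) :=
  (Finset.Ico (X.length + M.length + 1 - N) X.length).image
    (fun p => ((X ++ M ++ Y).drop p).take N)

lemma card_mid (N : ℕ) (X M Y : List A) : (mid N X M Y).card ≤ N - 1 - M.length := by
  unfold mid
  refine (Finset.card_image_le).trans ?_
  simp only [Nat.card_Ico]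
  omega

lemma split_window {N : ℕ} {X M Y v : List A} (h : v <:+: X ++ M ++ Y) (hv : v.length = N) :
    v <:+: X ++ M ∨ v <:+: M ++ Y ∨ v ∈ mid N X M Y := by
  obtain ⟨s, t, hst⟩ := h
  have hlen := congrArg List.length hst
  simp only [List.length_append] at hlen
  by_cases h1 : s.length + N ≤ X.length + M.length
  · left
    have h2 : (X ++ M) = (s ++ v ++ t).take (X.length + M.length) := by
      rw [hst, ← List.length_append, List.take_left]
    have h3 : s ++ v ++ t.take (X.length + M.length - (s.length + N)) = X ++ M := by
      rw [h2, List.take_append, List.take_of_length_le (l := s ++ v)]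
      · simp [hv]
      · simp only [List.length_append]; omega
    exact ⟨s, _, h3⟩
  · by_cases h2 : X.length ≤ s.length
    · right; left
      have h3 : (M ++ Y) = (s ++ v ++ t).drop X.length := by
        rw [hst, List.append_assoc, List.drop_left]
      refine ⟨s.drop X.length, t, ?_⟩
      rw [h3, List.append_assoc s, List.drop_append_of_le_length h2, List.append_assoc]
    · right; right
      unfold mid
      refine Finset.mem_image.2 ⟨s.length, ?_, ?_⟩
      · simp only [Finset.mem_Ico]; omega
      · rw [← hst]; subst hv; simp

lemma split_window' {N : ℕ} {X M Y v : List A} (h : v <:+: X ++ M ++ Y) (hv : v.length = N)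
    (hM : N ≤ M.length + 1) : v <:+: X ++ M ∨ v <:+: M ++ Y := by
  rcases split_window h hv with h | h | h
  · exact Or.inl h
  · exact Or.inr h
  · exfalso
    unfold mid at h
    simp only [Finset.mem_image, Finset.mem_Ico] at h
    obtain ⟨p, hp, _⟩ := h
    omega

lemma infix_append_replicate {N m : ℕ} {X v : List A} {a : A}
    (h : v <:+: X ++ List.replicate m a) (hv : v.length = N) :
    v <:+: X ++ List.replicate N a := by
  rcases le_total m N with hm | hm
  · refine h.trans ?_
    obtain ⟨c, rfl⟩ := Nat.exists_eq_add_of_le hm
    rw [List.replicate_add, ← List.append_assoc]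
    exact List.infix_append_left
  · obtain ⟨c, rfl⟩ := Nat.exists_eq_add_of_le hm
    rw [List.replicate_add, ← List.append_assoc] at h
    rcases split_window' h hv (by simp) with h | h
    · exact h
    · rw [← List.replicate_add] at h
      have : v = List.replicate N a := by
        rw [List.eq_replicate_iff]
        exact ⟨hv, fun b hb => List.eq_of_mem_replicate (h.subset hb)⟩
      rw [this]
      exact List.infix_append_right

lemma infix_replicate_append {N m : ℕ} {X v : List A} {a : A}
    (h : v <:+: List.replicate m a ++ X) (hv : v.length = N) :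
    v <:+: List.replicate N a ++ X := by
  have h' : v.reverse <:+: X.reverse ++ List.replicate m a := by
    rw [← List.reverse_infix] at h
    simpa using h
  have h2 := infix_append_replicate (N := N) h' (by simpa using hv)
  rw [← List.reverse_infix] at h2
  simpa using h2

end Windows

/-! ### The construction -/

section Construction

/-- The exponent used after the finite word `w` at stage `k`. -/
def expo (k : ℕ) (w : List (Fin 5)) : ℕ := 2 * w.length + k + 10

/-- The block of long runs `0^n 1^n 2^n 3^n 4^n`. -/
def runs (n : ℕ) : List (Fin 5) :=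
  List.replicate n 0 ++ List.replicate n 1 ++ List.replicate n 2 ++ List.replicate n 3 ++
    List.replicate n 4

/-- `U 0` is empty and `U (k+1) = U k ++ 0^n 1^n 2^n 3^n 4^n ++ U k` with `n = 2 |U k| + k + 10`. -/
def U : ℕ → List (Fin 5)
  | 0 => []
  | k + 1 => U k ++ runs (expo k (U k)) ++ U k

/-- The exponent of stage `k`. -/
def nn (k : ℕ) : ℕ := expo k (U k)

lemma U_succ (k : ℕ) : U (k + 1) = U k ++ runs (nn k) ++ U k := rfl

lemma nn_eq (k : ℕ) : nn k = 2 * (U k).length + k + 10 := rfl

lemma length_runs (n : ℕ) : (runs n).length = 5 * n := by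
  simp [runs]; ring

lemma length_U_succ (k : ℕ) : (U (k + 1)).length = 2 * (U k).length + 5 * nn k := by
  rw [U_succ]; simp [length_runs]; ring

lemma le_length_U (k : ℕ) : k ≤ (U k).length := by
  induction k with
  | zero => exact Nat.zero_le _
  | succ k ih => rw [length_U_succ, nn_eq]; omega

lemma U_prefix_succ (k : ℕ) : U k <+: U (k + 1) := by
  rw [U_succ, List.append_assoc]; exact List.prefix_append _ _

lemma U_prefix {j k : ℕ} (h : j ≤ k) : U j <+: U k := by
  induction k, h using Nat.le_induction with
  | base => exact List.prefix_refl _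
  | succ k _ ih => exact ih.trans (U_prefix_succ k)

lemma length_U_mono {j k : ℕ} (h : j ≤ k) : (U j).length ≤ (U k).length :=
  (U_prefix h).length_le

lemma nn_mono {j k : ℕ} (h : j ≤ k) : nn j ≤ nn k := by
  have := length_U_mono h
  rw [nn_eq, nn_eq]; omega

/-- The infinite word. -/
def u (i : ℕ) : Fin 5 := (U (i + 1)).getD i 0

lemma u_eq {j i : ℕ} (h : i < (U j).length) : u i = (U j)[i] := by
  have h1 : i < (U (i + 1)).length := lt_of_lt_of_le (Nat.lt_succ_self i) (le_length_U _)
  have h2 : u i = (U (i + 1))[i] := by
    unfold u
    rw [List.getD_eq_getElem _ _ h1]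
  rw [h2]
  rcases le_total (i + 1) j with hj | hj
  · exact (U_prefix hj).getElem h1
  · exact ((U_prefix hj).getElem h).symm

lemma length_block {A : Type*} (v : ℕ → A) (i n : ℕ) : (block v i n).length = n := by
  simp [block]

lemma block_eq {j i n : ℕ} (h : i + n ≤ (U j).length) :
    block u i n = ((U j).drop i).take n := by
  apply List.ext_getElem
  · simp [block]; omega
  · intro m h1 h2
    have hm : m < n := by simpa [block] using h1
    simp only [block, List.getElem_map, List.getElem_range, List.getElem_take, List.getElem_drop]
    exact u_eq _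

lemma block_infix {j i n : ℕ} (h : i + n ≤ (U j).length) : block u i n <:+: U j := by
  rw [block_eq h]
  exact (List.take_prefix _ _).isInfix.trans (List.drop_suffix _ _).isInfix

lemma isFactor_iff (w : List (Fin 5)) : IsFactor u w ↔ ∃ j, w <:+: U j := by
  constructor
  · rintro ⟨i, hi⟩
    refine ⟨i + w.length, ?_⟩
    rw [← hi]
    simp only [length_block]
    exact block_infix (le_length_U _)
  · rintro ⟨j, s, t, hst⟩
    refine ⟨s.length, ?_⟩
    have hl := congrArg List.length hst
    simp only [List.length_append] at hl
    rw [block_eq (j := j) (by omega), ← hst]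
    simp

lemma u_shift (j i : ℕ) (h : i < (U j).length) :
    u ((U j).length + 5 * nn j + i) = u i := by
  have h1 : (U j).length + 5 * nn j + i < (U (j + 1)).length := by
    rw [length_U_succ]; omega
  rw [u_eq h1, u_eq h]
  simp only [U_succ]
  rw [List.getElem_append_right (by simp [length_runs])]
  congr 1
  simp [length_runs]

lemma recurrent_u : Recurrent u := by
  rintro w ⟨i, hi⟩
  rw [Set.infinite_iff_exists_gt]
  intro N
  set j := i + w.length + N + 1 with hj
  have hlen := le_length_U j
  refine ⟨(U j).length + 5 * nn j + i, ?_, by omega⟩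
  simp only [Set.mem_ofPred_eq]
  conv_rhs => rw [← hi]
  unfold block
  apply List.map_congr_left
  intro k hk
  rw [List.mem_range] at hk
  rw [add_assoc, u_shift j (i + k) (by omega)]

/-- Letters following one another. -/
def Step (p q : Fin 5) : Prop := q = p ∨ q = p + 1

lemma nn_pos (k : ℕ) : 0 < nn k := by rw [nn_eq]; omega

lemma head_runs {n : ℕ} (hn : 0 < n) : (runs n).head? = some 0 := by
  obtain ⟨m, rfl⟩ := Nat.exists_eq_succ_of_ne_zero hn.ne'
  simp [runs, List.replicate_succ]

lemma getLast_runs {n : ℕ} (hn : 0 < n) : (runs n).getLast? = some 4 := by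
  obtain ⟨m, rfl⟩ := Nat.exists_eq_succ_of_ne_zero hn.ne'
  unfold runs
  rw [List.getLast?_append, List.getLast?_replicate]
  simp

lemma rel_append_replicate {m : ℕ} {X : List (Fin 5)} {a b : Fin 5} (hab : Step a b)
    (hX : X.getLast? = some a) :
    ∀ x ∈ X.getLast?, ∀ y ∈ (List.replicate m b).head?, Step x y := by
  intro x hx y hy
  rw [hX] at hx
  simp only [Option.mem_def, Option.some.injEq] at hx
  have : y = b := by
    rw [List.head?_replicate] at hy
    split_ifs at hy with h
    · simp at hy
    · simpa using hy.symm
  rw [this, ← hx]; exact hab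

lemma isChain_runs (n : ℕ) : (runs n).IsChain Step := by
  unfold runs
  have hrep : ∀ a : Fin 5, (List.replicate n a).IsChain Step := fun a =>
    List.isChain_replicate_of_rel n (Or.inl rfl)
  rcases Nat.eq_zero_or_pos n with rfl | hn
  · simp
  have hl : ∀ a : Fin 5, (List.replicate n a).getLast? = some a := by
    intro a; rw [List.getLast?_replicate]; simp [hn.ne']
  refine List.IsChain.append (List.IsChain.append (List.IsChain.append (List.IsChain.append
    (hrep 0) (hrep 1) ?_) (hrep 2) ?_) (hrep 3) ?_) (hrep 4) ?_
  · exact rel_append_replicate (a := 0) (Or.inr (by decide)) (hl 0)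
  · exact rel_append_replicate (a := 1) (Or.inr (by decide))
      (by rw [List.getLast?_append, hl 1]; rfl)
  · exact rel_append_replicate (a := 2) (Or.inr (by decide))
      (by rw [List.getLast?_append, hl 2]; rfl)
  · exact rel_append_replicate (a := 3) (Or.inr (by decide))
      (by rw [List.getLast?_append, hl 3]; rfl)

lemma ends_U (k : ℕ) : (∀ x ∈ (U k).head?, x = 0) ∧ (∀ x ∈ (U k).getLast?, x = 4) := by
  induction k with
  | zero => simp [U]
  | succ k ih =>
    rw [U_succ]
    constructor
    · rw [List.append_assoc, List.head?_append, List.head?_append, head_runs (nn_pos k)]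
      cases h : (U k).head? with
      | none => simp
      | some a => simp only [Option.some_or, Option.mem_def, Option.some.injEq]
                  intro x hx; rw [← hx]; exact ih.1 a h
    · rw [List.getLast?_append, List.getLast?_append, getLast_runs (nn_pos k)]
      cases h : (U k).getLast? with
      | none => simp
      | some a => simp only [Option.some_or, Option.mem_def, Option.some.injEq]
                  intro x hx; rw [← hx]; exact ih.2 a h

lemma isChain_U (k : ℕ) : (U k).IsChain Step := by
  induction k with
  | zero => simp [U]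
  | succ k ih =>
    rw [U_succ]
    refine List.IsChain.append (List.IsChain.append ih (isChain_runs _) ?_) ih ?_
    · intro x hx y hy
      rw [head_runs (nn_pos k)] at hy
      rw [(ends_U k).2 x hx]
      simp only [Option.mem_def, Option.some.injEq] at hy
      rw [← hy]; right; decide
    · intro x hx y hy
      rw [List.getLast?_append, getLast_runs (nn_pos k)] at hx
      simp only [Option.some_or, Option.mem_def, Option.some.injEq] at hx
      rw [← hx, (ends_U k).1 y hy]; right; decide

lemma isChain_of_isInfix {w v : List (Fin 5)} (hv : v.IsChain Step) (h : w <:+: v) :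
    w.IsChain Step := by
  obtain ⟨s, t, rfl⟩ := h
  exact hv.left_of_append.right_of_append

lemma isChain_of_isFactor {w : List (Fin 5)} (h : IsFactor u w) : w.IsChain Step := by
  obtain ⟨j, hj⟩ := (isFactor_iff w).1 h
  exact isChain_of_isInfix (isChain_U j) hj

lemma not_closed_u : ¬ ClosedUnderReversal u := by
  intro h
  have h01 : IsFactor u [0, 1] := by
    rw [isFactor_iff]
    refine ⟨1, List.replicate 9 0, List.replicate 9 1 ++ List.replicate 10 2 ++
      List.replicate 10 3 ++ List.replicate 10 4, ?_⟩
    decide
  have h10 := isChain_of_isFactor (h _ h01)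
  simp [Step] at h10

/-- Palindromes all of whose adjacent letters are related by `Step` are constant. -/
lemma pal_const {w : List (Fin 5)} (h : w.IsChain Step) (hp : IsPal w) :
    ∃ a, w = List.replicate w.length a := by
  have h2 : w.IsChain (fun a b => Step b a) := by
    rw [← List.isChain_reverse, hp]; exact h
  have h3 : w.IsChain (· = ·) := by
    rw [List.isChain_iff_getElem] at *
    intro i hi
    have ha := h i hi
    have hb := h2 i hi
    generalize w[i] = p at *
    generalize w[i + 1] = q at *
    revert ha hb p q
    unfold Step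
    decide
  rw [List.isChain_eq_iff_eq_replicate] at h3
  cases hw : w.head? with
  | none => rw [List.head?_eq_none_iff] at hw; subst hw; exact ⟨0, rfl⟩
  | some a => exact ⟨a, h3 a hw⟩

/-- Long runs of each letter occur. -/
lemma replicate_infix_runs (n : ℕ) (a : Fin 5) : List.replicate n a <:+: runs n := by
  unfold runs
  fin_cases a
  · exact ⟨[], List.replicate n 1 ++ List.replicate n 2 ++ List.replicate n 3 ++
      List.replicate n 4, by simp⟩
  · exact ⟨List.replicate n 0, List.replicate n 2 ++ List.replicate n 3 ++
      List.replicate n 4, by simp⟩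
  · exact ⟨List.replicate n 0 ++ List.replicate n 1, List.replicate n 3 ++
      List.replicate n 4, by simp⟩
  · exact ⟨List.replicate n 0 ++ List.replicate n 1 ++ List.replicate n 2,
      List.replicate n 4, by simp⟩
  · exact ⟨List.replicate n 0 ++ List.replicate n 1 ++ List.replicate n 2 ++
      List.replicate n 3, [], by simp⟩

lemma isFactor_replicate (n : ℕ) (a : Fin 5) : IsFactor u (List.replicate n a) := by
  rw [isFactor_iff]
  refine ⟨n + 1, ?_⟩
  have h1 : List.replicate n a <:+: runs (nn n) := by
    refine List.IsInfix.trans ?_ (replicate_infix_runs (nn n) a)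
    obtain ⟨c, hc⟩ := Nat.exists_eq_add_of_le (show n ≤ nn n by rw [nn_eq]; omega)
    rw [hc, List.replicate_add]
    exact List.infix_append_left
  rw [U_succ]
  exact h1.trans ⟨U n, U n, rfl⟩

lemma isPal_replicate {A : Type*} (n : ℕ) (a : A) : IsPal (List.replicate n a) :=
  List.reverse_replicate

lemma infinite_pal : {w | IsFactor u w ∧ IsPal w}.Infinite := by
  refine Set.infinite_of_injective_forall_mem (f := fun n => List.replicate n (0 : Fin 5)) ?_ ?_
  · intro a b hab
    simpa using congrArg List.length hab
  · intro n
    exact ⟨isFactor_replicate n 0, isPal_replicate n 0⟩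

/-! ### Counting factors -/

/-- The windows which look like windows of `4^∞ U_k 0^∞` or of `a^∞ (a+1)^∞`. -/
def InBase (k N : ℕ) (v : List (Fin 5)) : Prop :=
  v <:+: List.replicate N 4 ++ U k ++ List.replicate N 0 ∨
  v <:+: List.replicate N 0 ++ List.replicate N 1 ∨
  v <:+: List.replicate N 1 ++ List.replicate N 2 ∨
  v <:+: List.replicate N 2 ++ List.replicate N 3 ∨
  v <:+: List.replicate N 3 ++ List.replicate N 4

lemma infix_rep_rep {N n : ℕ} {a b : Fin 5} {v : List (Fin 5)}
    (h : v <:+: List.replicate n a ++ List.replicate n b) (hv : v.length = N) :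
    v <:+: List.replicate N a ++ List.replicate N b :=
  infix_append_replicate (infix_replicate_append h hv) hv

/-- The windows of length `N` that see a complete run of stage `k`. -/
def midSet (k N : ℕ) : Finset (List (Fin 5)) :=
  let n := nn k
  let r : Fin 5 → List (Fin 5) := fun a => List.replicate n a
  mid N (List.replicate N 4 ++ U k) (r 0)
    (r 1 ++ (r 2 ++ (r 3 ++ (r 4 ++ (U k ++ List.replicate N 0))))) ∪
  mid N (r 0) (r 1) (r 2 ++ (r 3 ++ (r 4 ++ (U k ++ List.replicate N 0)))) ∪
  mid N (r 1) (r 2) (r 3 ++ (r 4 ++ (U k ++ List.replicate N 0))) ∪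
  mid N (r 2) (r 3) (r 4 ++ (U k ++ List.replicate N 0)) ∪
  mid N (r 3) (r 4) (U k ++ List.replicate N 0)

lemma card_midSet (k N : ℕ) : (midSet k N).card ≤ 5 * (N - 1 - nn k) := by
  unfold midSet
  simp only
  refine (Finset.card_union_le _ _).trans ?_
  refine (Nat.add_le_add_right (Finset.card_union_le _ _) _).trans ?_
  refine (Nat.add_le_add_right (Nat.add_le_add_right (Finset.card_union_le _ _) _) _).trans ?_
  refine (Nat.add_le_add_right (Nat.add_le_add_right (Nat.add_le_add_right
    (Finset.card_union_le _ _) _) _) _).trans ?_
  have h : ∀ (X Y : List (Fin 5)) (a : Fin 5),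
      (mid N X (List.replicate (nn k) a) Y).card ≤ N - 1 - nn k := by
    intro X Y a
    simpa using card_mid N X (List.replicate (nn k) a) Y
  have h0 := h (List.replicate N 4 ++ U k) (List.replicate (nn k) 1 ++ (List.replicate (nn k) 2 ++
    (List.replicate (nn k) 3 ++ (List.replicate (nn k) 4 ++ (U k ++ List.replicate N 0))))) 0
  have h1 := h (List.replicate (nn k) 0) (List.replicate (nn k) 2 ++
    (List.replicate (nn k) 3 ++ (List.replicate (nn k) 4 ++ (U k ++ List.replicate N 0)))) 1
  have h2 := h (List.replicate (nn k) 1)
    (List.replicate (nn k) 3 ++ (List.replicate (nn k) 4 ++ (U k ++ List.replicate N 0))) 2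
  have h3 := h (List.replicate (nn k) 2)
    (List.replicate (nn k) 4 ++ (U k ++ List.replicate N 0)) 3
  have h4 := h (List.replicate (nn k) 3) (U k ++ List.replicate N 0) 4
  omega

lemma win_step {k N : ℕ} {v : List (Fin 5)} (hv : v.length = N)
    (h : v <:+: List.replicate N 4 ++ U (k + 1) ++ List.replicate N 0) :
    InBase k N v ∨ v ∈ midSet k N := by
  set n := nn k with hn
  have e : List.replicate N 4 ++ U (k + 1) ++ List.replicate N 0 =
      (List.replicate N 4 ++ U k) ++ List.replicate n 0 ++ (List.replicate n 1 ++
      (List.replicate n 2 ++ (List.replicate n 3 ++ (List.replicate n 4 ++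
      (U k ++ List.replicate N 0))))) := by
    rw [U_succ]; simp [runs, hn]
  rw [e] at h
  rcases split_window h hv with h | h | h
  · left; left
    exact infix_append_replicate h hv
  · rw [← List.append_assoc] at h
    rcases split_window h hv with h | h | h
    · left; right; left; exact infix_rep_rep h hv
    · rw [← List.append_assoc] at h
      rcases split_window h hv with h | h | h
      · left; right; right; left; exact infix_rep_rep h hv
      · rw [← List.append_assoc] at h
        rcases split_window h hv with h | h | h
        · left; right; right; right; left; exact infix_rep_rep h hv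
        · rw [← List.append_assoc] at h
          rcases split_window h hv with h | h | h
          · left; right; right; right; right; exact infix_rep_rep h hv
          · left; left
            rw [List.append_assoc]
            exact infix_replicate_append h hv
          · right; simp only [midSet, Finset.mem_union]; exact Or.inr h
        · right; simp only [midSet, Finset.mem_union]; exact Or.inl (Or.inr h)
      · right; simp only [midSet, Finset.mem_union]; exact Or.inl (Or.inl (Or.inr h))
    · right; simp only [midSet, Finset.mem_union]; exact Or.inl (Or.inl (Or.inl (Or.inr h)))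
  · right; simp only [midSet, Finset.mem_union]; exact Or.inl (Or.inl (Or.inl (Or.inl h)))

lemma inBase_of_le {k j N : ℕ} {v : List (Fin 5)} (hv : v.length = N) (hN : N ≤ nn k)
    (hkj : k ≤ j) (h : v <:+: List.replicate N 4 ++ U j ++ List.replicate N 0) :
    InBase k N v := by
  induction j, hkj using Nat.le_induction with
  | base => exact Or.inl h
  | succ j hkj ih =>
    rcases win_step hv h with h | h
    · rcases h with h | h
      · exact ih h
      · exact Or.inr h
    · exfalso
      have h1 := card_midSet j N
      have h2 := nn_mono hkj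
      have h3 : (midSet j N).card = 0 := by omega
      rw [Finset.card_eq_zero] at h3
      rw [h3] at h
      simp at h

lemma inBase_of_isFactor {k N : ℕ} {v : List (Fin 5)} (hv : v.length = N) (hN : N ≤ nn k)
    (h : IsFactor u v) : InBase k N v := by
  obtain ⟨j, hj⟩ := (isFactor_iff v).1 h
  refine inBase_of_le (j := j + k) hv hN (Nat.le_add_left _ _) ?_
  refine hj.trans ((U_prefix (Nat.le_add_right j k)).isInfix.trans ?_)
  exact ⟨List.replicate N 4, List.replicate N 0, rfl⟩

/-- The finite set of words in `InBase`. -/
def baseSet (k N : ℕ) : Finset (List (Fin 5)) :=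
  win N (List.replicate N 4 ++ U k ++ List.replicate N 0) ∪
  (win N (List.replicate N 0 ++ List.replicate N 1) ∪
  (win N (List.replicate N 1 ++ List.replicate N 2) ∪
  (win N (List.replicate N 2 ++ List.replicate N 3) ∪
  win N (List.replicate N 3 ++ List.replicate N 4))))

lemma mem_baseSet {k N : ℕ} {v : List (Fin 5)} (hv : v.length = N) (h : InBase k N v) :
    v ∈ baseSet k N := by
  simp only [baseSet, Finset.mem_union]
  rcases h with h | h | h | h | h
  · exact Or.inl (mem_win h hv)
  · exact Or.inr (Or.inl (mem_win h hv))
  · exact Or.inr (Or.inr (Or.inl (mem_win h hv)))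
  · exact Or.inr (Or.inr (Or.inr (Or.inl (mem_win h hv))))
  · exact Or.inr (Or.inr (Or.inr (Or.inr (mem_win h hv))))

lemma card_baseSet (k N : ℕ) : (baseSet k N).card ≤ 5 * N + 5 + (U k).length := by
  unfold baseSet
  refine (Finset.card_union_le _ _).trans ?_
  refine (Nat.add_le_add_left (Finset.card_union_le _ _) _).trans ?_
  refine (Nat.add_le_add_left (Nat.add_le_add_left (Finset.card_union_le _ _) _) _).trans ?_
  refine (Nat.add_le_add_left (Nat.add_le_add_left (Nat.add_le_add_left
    (Finset.card_union_le _ _) _) _) _).trans ?_
  have h0 := card_win N (List.replicate N 4 ++ U k ++ List.replicate N 0)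
  have h1 := card_win N (List.replicate N (0 : Fin 5) ++ List.replicate N 1)
  have h2 := card_win N (List.replicate N (1 : Fin 5) ++ List.replicate N 2)
  have h3 := card_win N (List.replicate N (2 : Fin 5) ++ List.replicate N 3)
  have h4 := card_win N (List.replicate N (3 : Fin 5) ++ List.replicate N 4)
  simp only [List.length_append, List.length_replicate] at h0 h1 h2 h3 h4
  omega

lemma C_le_one {k N : ℕ} (hN : N ≤ nn k) : C u N ≤ 5 * N + 5 + (U k).length := by
  have hsub : {w : List (Fin 5) | IsFactor u w ∧ w.length = N} ⊆ ↑(baseSet k N) := by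
    rintro w ⟨hw, hl⟩
    exact mem_baseSet hl (inBase_of_isFactor hl hN hw)
  have := Set.ncard_le_ncard hsub (Finset.finite_toSet _)
  rw [Set.ncard_coe_finset] at this
  exact this.trans (card_baseSet k N)

lemma C_le_two {k N : ℕ} (hN : N ≤ nn (k + 1)) :
    C u N ≤ 5 * N + 5 + (U k).length + 5 * (N - 1 - nn k) := by
  have hsub : {w : List (Fin 5) | IsFactor u w ∧ w.length = N} ⊆
      ↑(baseSet k N ∪ midSet k N) := by
    rintro w ⟨hw, hl⟩
    rw [Finset.coe_union]
    rcases inBase_of_isFactor hl hN hw with h | h
    · rcases win_step hl h with h | h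
      · exact Or.inl (mem_baseSet hl h)
      · exact Or.inr h
    · exact Or.inl (mem_baseSet hl (Or.inr h))
  have h1 := Set.ncard_le_ncard hsub (Finset.finite_toSet _)
  rw [Set.ncard_coe_finset] at h1
  have h2 := Finset.card_union_le (baseSet k N) (midSet k N)
  have h3 := card_baseSet k N
  have h4 := card_midSet k N
  unfold C
  omega

lemma finite_len (N : ℕ) (Q : List (Fin 5) → Prop) :
    {w : List (Fin 5) | w.length = N ∧ Q w}.Finite :=
  (List.finite_length_eq (Fin 5) N).subset (fun _ h => h.1)

lemma P_ge {n : ℕ} (hn : 1 ≤ n) : 5 ≤ P u n := by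
  have h5 : ((Finset.univ : Finset (Fin 5)).image (fun a => List.replicate n a)).card = 5 := by
    rw [Finset.card_image_of_injective, Finset.card_univ, Fintype.card_fin]
    intro a b hab
    have : a ∈ List.replicate n b := by
      rw [← (show List.replicate n a = List.replicate n b from hab)]
      exact List.mem_replicate.2 ⟨by omega, rfl⟩
    exact (List.mem_replicate.1 this).2
  have hsub : (↑((Finset.univ : Finset (Fin 5)).image (fun a => List.replicate n a)) :
      Set (List (Fin 5))) ⊆ {w | IsFactor u w ∧ w.length = n ∧ IsPal w} := by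
    intro w hw
    simp only [Finset.coe_image, Finset.coe_univ, Set.image_univ, Set.mem_range] at hw
    obtain ⟨a, rfl⟩ := hw
    exact ⟨isFactor_replicate n a, List.length_replicate, isPal_replicate n a⟩
  have hfin : {w | IsFactor u w ∧ w.length = n ∧ IsPal w}.Finite :=
    (List.finite_length_eq (Fin 5) n).subset (fun w h => h.2.1)
  have := Set.ncard_le_ncard hsub hfin
  rw [Set.ncard_coe_finset, h5] at this
  exact this

lemma isFactor_nil : IsFactor u [] := ⟨0, rfl⟩

lemma P_zero : 1 ≤ P u 0 := by
  have hfin : {w | IsFactor u w ∧ w.length = 0 ∧ IsPal w}.Finite :=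
    (List.finite_length_eq (Fin 5) 0).subset (fun w h => h.2.1)
  exact (Set.ncard_pos hfin).2 ⟨[], isFactor_nil, rfl, rfl⟩

lemma C_zero : 1 ≤ C u 0 := by
  have hfin : {w | IsFactor u w ∧ w.length = 0}.Finite :=
    (List.finite_length_eq (Fin 5) 0).subset (fun w h => h.2)
  exact (Set.ncard_pos hfin).2 ⟨[], isFactor_nil, rfl⟩

lemma sum_T_le (N : ℕ) :
    ∑ n ∈ Finset.range (N + 1), T u n ≤ (C u (N + 1) : ℤ) - 8 * (N + 1) + 3 := by
  induction N with
  | zero =>
    have h1 := P_ge (n := 1) le_rfl
    have h2 := P_zero
    have h3 := C_zero
    simp only [Finset.sum_range_succ, Finset.sum_range_zero, T, Nat.zero_add]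
    push_cast
    omega
  | succ N ih =>
    rw [Finset.sum_range_succ]
    have h1 := P_ge (n := N + 1) (by omega)
    have h2 := P_ge (n := N + 1 + 1) (by omega)
    have h3 : T u (N + 1) ≤ (C u (N + 1 + 1) : ℤ) - C u (N + 1) - 8 := by
      unfold T; omega
    push_cast at *
    omega

lemma sum_T_small {k N : ℕ} (h1 : nn k < N) (h2 : N ≤ nn (k + 1)) :
    ∑ n ∈ Finset.range N, T u n ≤ -(k : ℤ) := by
  obtain ⟨M, rfl⟩ := Nat.exists_eq_succ_of_ne_zero (show N ≠ 0 by omega)
  have ha := sum_T_le M
  have hb := C_le_one h2
  have hc := C_le_two h2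
  rw [length_U_succ] at hb
  have hd := nn_eq k
  simp only [Nat.succ_eq_add_one] at *
  omega

lemma lt_nn (k : ℕ) : k < nn k := by rw [nn_eq]; omega

lemma sum_T_tendsto : Tendsto (fun N => ∑ n ∈ Finset.range N, T u n) atTop atBot := by
  rw [tendsto_atTop_atBot]
  intro b
  refine ⟨nn b.natAbs + 1, fun N hN => ?_⟩
  -- find the stage of `N`
  have hex : ∃ k, N ≤ nn (k + 1) := ⟨N, (lt_nn N).le.trans (nn_mono (Nat.le_succ N))⟩
  classical
  set k := Nat.find hex with hk
  have h2 : N ≤ nn (k + 1) := Nat.find_spec hex
  have hbk : b.natAbs ≤ k := by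
    by_contra hlt
    push Not at hlt
    have := nn_mono (show k + 1 ≤ b.natAbs by omega)
    omega
  have h1 : nn k < N := by
    rcases Nat.eq_zero_or_pos k with h0 | hpos
    · have := nn_mono (show k ≤ b.natAbs by omega)
      omega
    · have := Nat.find_min hex (show k - 1 < Nat.find hex by omega)
      rw [Nat.sub_add_cancel hpos] at this
      omega
  have := sum_T_small h1 h2
  omega

/-! ### The defect -/

lemma count_runs (n : ℕ) (a : Fin 5) : (runs n).count a = n := by
  unfold runs
  simp only [List.count_append, List.count_replicate]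
  fin_cases a <;> simp

lemma run_le {k m : ℕ} {a : Fin 5} (h : List.replicate m a <:+: U (k + 1)) :
    m ≤ (U k).count a + nn k := by
  rw [U_succ] at h
  rcases List.infix_append_iff_ne_nil.1 h with h | h | ⟨s, t, hs, ht, hst, h1, h2⟩
  · have := h.sublist.count_le a
    rw [List.count_append, count_runs, List.count_replicate_self] at this
    exact this
  · have := h.sublist.count_le a
    rw [List.count_replicate_self] at this
    omega
  · exfalso
    -- `s` ends with `4` and `t` starts with `0`
    have hall : ∀ b ∈ s ++ t, b = a := by
      rw [← hst]; intro b hb; exact List.eq_of_mem_replicate hb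
    obtain ⟨x, hx⟩ : ∃ x, s.getLast? = some x :=
      Option.isSome_iff_exists.1 (List.getLast?_isSome.2 hs)
    obtain ⟨y, hy⟩ : ∃ y, t.head? = some y := by
      cases t with
      | nil => exact absurd rfl ht
      | cons y t => exact ⟨y, rfl⟩
    have hxa : x = a := hall x (List.mem_append_left _ (List.mem_of_getLast? hx))
    have hya : y = a := hall y (List.mem_append_right _ (List.mem_of_head? hy))
    have hx4 : x = 4 := by
      obtain ⟨r, hr⟩ := h1
      have h3 : (U k ++ runs (nn k)).getLast? = some 4 := by
        rw [List.getLast?_append, getLast_runs (nn_pos k)]; rfl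
      rw [← hr, List.getLast?_append, hx] at h3
      simpa using h3
    have hy0 : y = 0 := by
      obtain ⟨r, hr⟩ := h2
      apply (ends_U k).1
      rw [← hr, List.head?_append, hy]; rfl
    rw [hxa.symm.trans hx4] at hya
    rw [hy0] at hya
    exact absurd hya (by decide)

lemma sum_count (w : List (Fin 5)) : ∑ a : Fin 5, w.count a = w.length := by
  have := Multiset.sum_count_eq_card (s := (Finset.univ : Finset (Fin 5)))
    (m := (w : Multiset (Fin 5))) (fun a _ => Finset.mem_univ a)
  simpa using this

lemma wordDefect_U (k : ℕ) : ((U k).length : ℤ) ≤ wordDefect (U (k + 1)) := by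
  classical
  set S : Finset (List (Fin 5)) := {[]} ∪ Finset.univ.biUnion (fun a : Fin 5 =>
    (Finset.Icc 1 ((U k).count a + nn k)).image (fun m => List.replicate m a)) with hS
  have hcard : S.card ≤ 1 + ((U k).length + 5 * nn k) := by
    rw [hS]
    refine (Finset.card_union_le _ _).trans ?_
    rw [Finset.card_singleton]
    refine Nat.add_le_add_left ?_ _
    refine Finset.card_biUnion_le.trans ?_
    calc ∑ a : Fin 5, ((Finset.Icc 1 ((U k).count a + nn k)).image
          (fun m => List.replicate m a)).card
        ≤ ∑ a : Fin 5, ((U k).count a + nn k) := by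
          refine Finset.sum_le_sum (fun a _ => Finset.card_image_le.trans ?_)
          simp
      _ = (U k).length + 5 * nn k := by
          rw [Finset.sum_add_distrib, sum_count]; simp
  have hsub : {v : List (Fin 5) | v <:+: U (k + 1) ∧ IsPal v} ⊆ ↑S := by
    rintro v ⟨hv, hp⟩
    obtain ⟨a, ha⟩ := pal_const (isChain_of_isInfix (isChain_U _) hv) hp
    rw [hS, Finset.coe_union]
    rcases Nat.eq_zero_or_pos v.length with h0 | hpos
    · left
      rw [List.length_eq_zero_iff] at h0
      simp [h0]
    · right
      simp only [Finset.mem_coe, Finset.mem_biUnion, Finset.mem_univ, true_and,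
        Finset.mem_image, Finset.mem_Icc]
      rw [ha] at hv
      exact ⟨a, v.length, ⟨hpos, run_le hv⟩, ha.symm⟩
  have h1 := Set.ncard_le_ncard hsub (Finset.finite_toSet _)
  rw [Set.ncard_coe_finset] at h1
  unfold wordDefect
  rw [length_U_succ]
  push_cast
  omega

lemma defect_u : defect u = ⊤ := by
  rw [EReal.eq_top_iff_forall_lt]
  intro y
  obtain ⟨k, hk⟩ := exists_nat_gt y
  have h1 : ((((wordDefect (block u 0 (U (k + 1)).length) : ℤ) : ℝ)) : EReal) ≤ defect u :=
    le_iSup (fun n : ℕ => (((wordDefect (block u 0 n) : ℤ) : ℝ) : EReal)) (U (k + 1)).length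
  have h2 : block u 0 (U (k + 1)).length = U (k + 1) := by
    rw [block_eq (j := k + 1) (by simp)]; simp
  rw [h2] at h1
  refine lt_of_lt_of_le ?_ h1
  rw [EReal.coe_lt_coe_iff]
  have h3 : (k : ℤ) ≤ wordDefect (U (k + 1)) :=
    le_trans (by exact_mod_cast le_length_U k) (wordDefect_U k)
  have h4 : (k : ℝ) ≤ (wordDefect (U (k + 1)) : ℝ) := by exact_mod_cast h3
  linarith

end Construction

/-- **Disproof of the defect equality for recurrent words.** There is a recurrent infinite word
`u` over a five letter alphabet that has infinitely many palindromic factors and whose language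
is not closed under reversal, with defect `+∞`, for which the partial sums of `∑ T_u(n)` tend
to `-∞`; in particular they do not converge to `2 D(u)`. -/
theorem result : ∃ u : ℕ → Fin 5, Recurrent u ∧ {w | IsFactor u w ∧ IsPal w}.Infinite ∧
    ¬ ClosedUnderReversal u ∧ defect u = ⊤ ∧ Tendsto (partialSum u) atTop (𝓝 ⊥) ∧
    ¬ Tendsto (partialSum u) atTop (𝓝 (2 * defect u)) := by
  have ht : Tendsto (partialSum u) atTop (𝓝 ⊥) := by
    unfold partialSum
    rw [EReal.tendsto_coe_nhds_bot_iff]
    exact tendsto_intCast_atBot_iff.2 sum_T_tendsto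
  refine ⟨u, recurrent_u, infinite_pal, not_closed_u, defect_u, ht, fun h => ?_⟩
  have h2 := tendsto_nhds_unique ht h
  rw [defect_u, EReal.mul_top_of_pos (by norm_num)] at h2
  exact bot_ne_top h2

end Pool.Agent.Results.MP_4402c4_co.Disproof
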